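import Pool.Agent.helper62.VN.SpecG

/-!
# Project VN (MP_07c750_an), row vne:GFL: the flow of a negatively curved metric as an abstract flow
-/

set_option autoImplicit false

open scoped MatrixGroups ContDiff Topology UpperHalfPlane
open UpperHalfPlane MeasureTheory Filter Set

namespace Pool.Agent.VNE

open Pool.Agent.RS Pool.Agent.VQE
open Pool.Agent.VQ (Dyn rho kap n1 n2 hess Ug TF)
open Pool.Agent.VN (PotN OKN Kg)

/-- the vector field, first column -/
theorem GFL_c0 (M : Matrix (Fin 2) (Fin 2) ℝ) (U : ℍ → ℝ) (E : ℝ) (g : SL(2, ℝ)) (i : Fin 2) :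
    (M * VQ.XX U E g) i 0 = M i 0 * (rho U E g / 2) + M i 1 * (-(kap U E g) / 2) := by
  rw [Matrix.mul_apply, Fin.sum_univ_two]
  have h0 : VQ.XX U E g 0 0 = rho U E g / 2 := by
    simp [VQ.XX, VQ.A0, VQ.K0]
    ring
  have h1 : VQ.XX U E g 1 0 = -(kap U E g) / 2 := by
    simp [VQ.XX, VQ.A0, VQ.K0]
    ring
  rw [h0, h1]

/-- the vector field, second column -/
theorem GFL_c1 (M : Matrix (Fin 2) (Fin 2) ℝ) (U : ℍ → ℝ) (E : ℝ) (g : SL(2, ℝ)) (i : Fin 2) :
    (M * VQ.XX U E g) i 1 = -(M i 0 * (-(kap U E g) / 2)) - M i 1 * (rho U E g / 2) := by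
  rw [Matrix.mul_apply, Fin.sum_univ_two]
  have h0 : VQ.XX U E g 0 1 = kap U E g / 2 := by
    simp [VQ.XX, VQ.A0, VQ.K0]
    ring
  have h1 : VQ.XX U E g 1 1 = -(rho U E g / 2) := by
    simp [VQ.XX, VQ.A0, VQ.K0]
    ring
  rw [h0, h1]
  ring

theorem GFL_proof (h1 : VN.FLBN_stmt) (h2 : VN.NHM_stmt) : GFL_stmt := by
  intro Γ k B D hΓ hD
  have hF : ∀ E : ℝ, |E| ≤ k → Flw (rho D.U E) (fun g => -(kap D.U E g) / 2) (D.fl E) := by
    intro E hE
    refine ⟨fun g => hD.fl0 E g, (h1 Γ k B D hΓ hD E hE).1, ?_, ?_, ?_⟩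
    · have hc : Continuous fun x : ℝ × SL(2, ℝ) => ((E, x.1, x.2) : ℝ × ℝ × SL(2, ℝ)) :=
        continuous_const.prodMk (continuous_fst.prodMk continuous_snd)
      exact hD.cfl.comp_continuous hc fun x => hE
    · intro i t g
      have h := hD.dfl E t g hE i 0
      rw [GFL_c0] at h
      exact h
    · intro i t g
      have h := hD.dfl E t g hE i 1
      rw [GFL_c1] at h
      exact h
  have h0 : |(0 : ℝ)| ≤ k := by
    rw [abs_zero]
    exact hD.pot.kpos.1.le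
  exact ⟨{ hF 0 h0 with
    inv := (h1 Γ k B D hΓ hD 0 h0).2.1
    mp := fun t => h2 Γ k B D hD 0 t h0 }, hF⟩

end Pool.Agent.VNE
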