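import Pool.Agent.helper62.VN.SpecE

/-!
# Project VN (MP_07c750_an), row vne:NGC: clamped global solutions
-/

set_option autoImplicit false

open scoped MatrixGroups ContDiff Topology UpperHalfPlane
open UpperHalfPlane MeasureTheory Filter Set

namespace Pool.Agent.VNE

open Pool.Agent.RS Pool.Agent.VQE

/-- the projection to `[-e, e]` -/
noncomputable def NGC_cl (e s : ℝ) : ℝ := max (-e) (min s e)

theorem NGC_cl_abs {e : ℝ} (he : 0 ≤ e) (s : ℝ) : |NGC_cl e s| ≤ e := by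
  unfold NGC_cl
  rw [abs_le]
  exact ⟨le_max_left _ _, max_le (by linarith) (min_le_right _ _)⟩

theorem NGC_cl_eq {e s : ℝ} (h : |s| ≤ e) : NGC_cl e s = s := by
  unfold NGC_cl
  rw [abs_le] at h
  rw [min_eq_left h.2, max_eq_right h.1]

theorem NGC_cl_lip (e s t : ℝ) : |NGC_cl e s - NGC_cl e t| ≤ |s - t| := by
  unfold NGC_cl
  refine (abs_max_sub_max_le_max _ _ _ _).trans ?_
  rw [sub_self, abs_zero, max_eq_right (abs_nonneg _)]
  refine (abs_min_sub_min_le_max _ _ _ _).trans ?_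
  rw [sub_self, abs_zero, max_eq_left (abs_nonneg _)]

theorem NGC_cl_le {e : ℝ} (he : 0 ≤ e) (s : ℝ) : |NGC_cl e s| ≤ |s| := by
  have h := NGC_cl_lip e s 0
  have h0 : NGC_cl e 0 = 0 := NGC_cl_eq (by rw [abs_zero]; exact he)
  rwa [h0, sub_zero, sub_zero] at h

theorem NGC_cont {h : SL(2, ℝ) → ℝ} {p q : SL(2, ℝ) → ℝ} {f : ℝ → SL(2, ℝ) → SL(2, ℝ)} (hf : Flw p q f)
    (hc : ∀ (T : ℝ) (g : SL(2, ℝ)), ContinuousOn (fun t => h (f t g)) (Icc 0 T)) (g : SL(2, ℝ)) : Continuous fun t => h (f t g) := by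
  rw [continuous_iff_continuousAt]
  intro t0
  have h1 : ContinuousOn (fun t => h (f t (f (-(|t0| + 1)) g))) (Icc 0 (2 * |t0| + 2)) := hc _ _
  have h2 : ContinuousAt (fun t => h (f t (f (-(|t0| + 1)) g))) (t0 + (|t0| + 1)) := by
    apply h1.continuousAt
    apply Icc_mem_nhds
    · linarith [neg_abs_le t0]
    · linarith [le_abs_self t0]
  have h3 : ContinuousAt (fun t : ℝ => t + (|t0| + 1)) t0 := by fun_prop
  have h4 : ContinuousAt ((fun t => h (f t (f (-(|t0| + 1)) g))) ∘ fun t : ℝ => t + (|t0| + 1)) t0 :=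
    ContinuousAt.comp (f := fun t : ℝ => t + (|t0| + 1)) (x := t0) h2 h3
  have h5 : ((fun t => h (f t (f (-(|t0| + 1)) g))) ∘ fun t : ℝ => t + (|t0| + 1)) = fun t => h (f t g) := by
    funext t
    show h (f (t + (|t0| + 1)) (f (-(|t0| + 1)) g)) = h (f t g)
    rw [← hf.add, add_neg_cancel_right]
  rwa [h5] at h4

theorem NGC_proof (h1 : NCH_stmt) (h2 : VQE.GLO_stmt) : NGC_stmt := by
  intro K hK
  obtain ⟨C, hC, hNCH⟩ := h1 K hK
  have hK0 : 0 < K := by linarith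
  have hC0 : 0 < C := by linarith
  refine ⟨min (1 / C) (1 / (100 * K ^ 5)), lt_min (by positivity) (by positivity), ?_⟩
  intro ε X g hε hεε hX
  have hεC : ε ≤ 1 / C := hεε.trans (min_le_left _ _)
  have hε5 : ε ≤ 1 / (100 * K ^ 5) := hεε.trans (min_le_right _ _)
  obtain ⟨-, -, h00, -, -, hpc, -, -, hkc, hcont⟩ := hNCH X hX
  have hK5 : K * ε ≤ 1 / (100 * K ^ 4) := by
    calc K * ε ≤ K * (1 / (100 * K ^ 5)) := mul_le_mul_of_nonneg_left hε5 hK0.le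
      _ = 1 / (100 * K ^ 4) := by field_simp
  have hK4 : (1 : ℝ) ≤ K ^ 4 := one_le_pow₀ hK
  have hK2 : (1 : ℝ) ≤ K ^ 2 := one_le_pow₀ hK
  have hη : 1 / (100 * K ^ 4) ≤ 1 / 100 := by
    apply one_div_le_one_div_of_le (by norm_num)
    linarith
  have hεK : ε ≤ 1 / K := by
    rw [le_div_iff₀ hK0]
    linarith
  have he0 : 0 ≤ ε / 2 := by linarith
  set cl : ℝ → ℝ := NGC_cl (ε / 2) with hcl
  have hab : ∀ s, |cl s| ≤ ε / 2 := fun s => NGC_cl_abs he0 s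
  have hlip : ∀ s t, |cl s - cl t| ≤ |s - t| := fun s t => NGC_cl_lip _ s t
  have hle : ∀ s, |cl s| ≤ |s| := fun s => NGC_cl_le he0 s
  have hfc : Continuous (fun t : ℝ => X.f t g) := hX.flw.cont.comp (by fun_prop : Continuous (fun t : ℝ => (t, g)))
  set F : ℝ → ℝ × ℝ → ℝ × ℝ := fun t z =>
    (X.p (X.f t g) ^ 2 * z.2 + (FJ X (X.f t g) (cl z.1) (cl z.2) - X.p (X.f t g) ^ 2 * cl z.2),
      X.κ (X.f t g) * z.1 + (FW X (X.f t g) (cl z.1) (cl z.2) - X.κ (X.f t g) * cl z.1)) with hF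
  have hpt : Continuous fun t => X.p (X.f t g) := hpc.comp hfc
  have hkt : Continuous fun t => X.κ (X.f t g) := hkc.comp hfc
  have hFc : ∀ z, Continuous (fun t => F t z) := by
    intro z
    have hs : |cl z.1| + |cl z.2| ≤ 1 / C := by linarith [hab z.1, hab z.2]
    have hJ : Continuous fun t => FJ X (X.f t g) (cl z.1) (cl z.2) := by
      refine NGC_cont (h := fun g => FJ X g (cl z.1) (cl z.2)) hX.flw ?_ g
      intro T g
      exact (hcont T g (fun _ => cl z.1) (fun _ => cl z.2) continuousOn_const continuousOn_const (fun t _ => hs)).2.1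
    have hW : Continuous fun t => FW X (X.f t g) (cl z.1) (cl z.2) := by
      refine NGC_cont (h := fun g => FW X g (cl z.1) (cl z.2)) hX.flw ?_ g
      intro T g
      exact (hcont T g (fun _ => cl z.1) (fun _ => cl z.2) continuousOn_const continuousOn_const (fun t _ => hs)).2.2
    exact (((hpt.pow 2).mul continuous_const).add (hJ.sub ((hpt.pow 2).mul continuous_const))).prodMk
      ((hkt.mul continuous_const).add (hW.sub (hkt.mul continuous_const)))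
  have hp2 : ∀ h, 0 ≤ X.p h ^ 2 ∧ X.p h ^ 2 ≤ K ^ 2 ∧ 1 / K ^ 2 ≤ X.p h ^ 2 := by
    intro h
    obtain ⟨h1, h2⟩ := hX.pb h
    have h3 : 0 < 1 / K := by positivity
    refine ⟨by positivity, pow_le_pow_left₀ (by linarith) h2 2, ?_⟩
    have h4 := pow_le_pow_left₀ h3.le h1 2
    rwa [div_pow, one_pow] at h4
  have hk2 : ∀ h, 0 ≤ X.κ h ∧ X.κ h ≤ K ^ 2 ∧ 1 / K ^ 2 ≤ X.κ h := by
    intro h
    obtain ⟨h1, h2⟩ := hX.kb h
    have h3 : 0 < 1 / K := by positivity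
    refine ⟨by linarith, by nlinarith, le_trans ?_ h1⟩
    apply one_div_le_one_div_of_le hK0
    nlinarith
  -- the remainder is Lipschitz
  have hrem : ∀ (h : SL(2, ℝ)) (z w : ℝ × ℝ),
      |FJ X h (cl z.1) (cl z.2) - FJ X h (cl w.1) (cl w.2) - X.p h ^ 2 * (cl z.2 - cl w.2)| ≤ ‖z - w‖ ∧
      |FW X h (cl z.1) (cl z.2) - FW X h (cl w.1) (cl w.2) - X.κ h * (cl z.1 - cl w.1)| ≤ ‖z - w‖ := by
    intro h z w
    have hz : |cl z.1| + |cl z.2| ≤ 1 / K := by linarith [hab z.1, hab z.2]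
    have hw : |cl w.1| + |cl w.2| ≤ 1 / K := by linarith [hab w.1, hab w.2]
    obtain ⟨m1, m2⟩ := hX.f1 h (cl z.1) (cl z.2) (cl w.1) (cl w.2) hz hw
    have e1 : |z.1 - w.1| ≤ ‖z - w‖ := norm_fst_le (z - w)
    have e2 : |z.2 - w.2| ≤ ‖z - w‖ := norm_snd_le (z - w)
    have k1 := hlip z.1 w.1
    have k2 := hlip z.2 w.2
    have k3 : K * (|cl z.1| + |cl z.2| + |cl w.1| + |cl w.2|) * (|cl z.1 - cl w.1| + |cl z.2 - cl w.2|) ≤ ‖z - w‖ := by
      have a1 : K * (|cl z.1| + |cl z.2| + |cl w.1| + |cl w.2|) ≤ 2 / 100 := by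
        have a2 : K * (|cl z.1| + |cl z.2| + |cl w.1| + |cl w.2|) ≤ K * (2 * ε) :=
          mul_le_mul_of_nonneg_left (by linarith [hab z.1, hab z.2, hab w.1, hab w.2]) hK0.le
        linarith
      have a3 : |cl z.1 - cl w.1| + |cl z.2 - cl w.2| ≤ 2 * ‖z - w‖ := by linarith
      calc K * (|cl z.1| + |cl z.2| + |cl w.1| + |cl w.2|) * (|cl z.1 - cl w.1| + |cl z.2 - cl w.2|) ≤ 2 / 100 * (2 * ‖z - w‖) :=
            mul_le_mul a1 a3 (by positivity) (by norm_num)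
        _ ≤ ‖z - w‖ := by linarith [norm_nonneg (z - w)]
    exact ⟨m1.trans k3, m2.trans k3⟩
  have hFL : ∀ t z w, ‖F t z - F t w‖ ≤ (K ^ 2 + 1) * ‖z - w‖ := by
    intro t z w
    obtain ⟨m1, m2⟩ := hrem (X.f t g) z w
    have e1 : |z.1 - w.1| ≤ ‖z - w‖ := norm_fst_le (z - w)
    have e2 : |z.2 - w.2| ≤ ‖z - w‖ := norm_snd_le (z - w)
    obtain ⟨p1, p2, -⟩ := hp2 (X.f t g)
    obtain ⟨k1, k2, -⟩ := hk2 (X.f t g)
    have n1 : |X.p (X.f t g) ^ 2 * (z.2 - w.2)| ≤ K ^ 2 * ‖z - w‖ := by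
      rw [abs_mul, abs_of_nonneg p1]
      exact mul_le_mul p2 e2 (abs_nonneg _) (by positivity)
    have n2 : |X.κ (X.f t g) * (z.1 - w.1)| ≤ K ^ 2 * ‖z - w‖ := by
      rw [abs_mul, abs_of_nonneg k1]
      exact mul_le_mul k2 e1 (abs_nonneg _) (by positivity)
    rw [Prod.norm_def]
    refine max_le ?_ ?_
    · show |(X.p (X.f t g) ^ 2 * z.2 + (FJ X (X.f t g) (cl z.1) (cl z.2) - X.p (X.f t g) ^ 2 * cl z.2)) -
        (X.p (X.f t g) ^ 2 * w.2 + (FJ X (X.f t g) (cl w.1) (cl w.2) - X.p (X.f t g) ^ 2 * cl w.2))| ≤ _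
      have h3 := abs_add_le (X.p (X.f t g) ^ 2 * (z.2 - w.2))
        (FJ X (X.f t g) (cl z.1) (cl z.2) - FJ X (X.f t g) (cl w.1) (cl w.2) - X.p (X.f t g) ^ 2 * (cl z.2 - cl w.2))
      refine le_trans (le_of_eq ?_) (h3.trans ?_)
      · congr 1
        ring
      · linarith
    · show |(X.κ (X.f t g) * z.1 + (FW X (X.f t g) (cl z.1) (cl z.2) - X.κ (X.f t g) * cl z.1)) -
        (X.κ (X.f t g) * w.1 + (FW X (X.f t g) (cl w.1) (cl w.2) - X.κ (X.f t g) * cl w.1))| ≤ _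
      have h3 := abs_add_le (X.κ (X.f t g) * (z.1 - w.1))
        (FW X (X.f t g) (cl z.1) (cl z.2) - FW X (X.f t g) (cl w.1) (cl w.2) - X.κ (X.f t g) * (cl z.1 - cl w.1))
      refine le_trans (le_of_eq ?_) (h3.trans ?_)
      · congr 1
        ring
      · linarith
  obtain ⟨Φ, hΦ0, hΦd, hΦc⟩ := h2 F (K ^ 2 + 1) hFc hFL
  have hd1 : ∀ z t, HasDerivAt (fun s => (Φ s z).1) ((F t (Φ t z)).1) t := fun z t => (hΦd z t).fst
  have hd2 : ∀ z t, HasDerivAt (fun s => (Φ s z).2) ((F t (Φ t z)).2) t := fun z t => (hΦd z t).snd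
  -- the size of the remainder
  have hsz : ∀ (h : SL(2, ℝ)) (z : ℝ × ℝ), |FJ X h (cl z.1) (cl z.2) - X.p h ^ 2 * cl z.2| ≤ 1 / (100 * K ^ 4) * (|z.1| + |z.2|) ∧
      |FW X h (cl z.1) (cl z.2) - X.κ h * cl z.1| ≤ 1 / (100 * K ^ 4) * (|z.1| + |z.2|) := by
    intro h z
    have hz : |cl z.1| + |cl z.2| ≤ 1 / K := by linarith [hab z.1, hab z.2]
    obtain ⟨m1, m2⟩ := hX.f1 h (cl z.1) (cl z.2) 0 0 hz (by rw [abs_zero, add_zero]; positivity)
    obtain ⟨z1, z2⟩ := h00 h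
    rw [z1, abs_zero, add_zero, add_zero, sub_zero, sub_zero, sub_zero] at m1
    rw [z2, abs_zero, add_zero, add_zero, sub_zero, sub_zero, sub_zero] at m2
    have k : K * (|cl z.1| + |cl z.2|) * (|cl z.1| + |cl z.2|) ≤ 1 / (100 * K ^ 4) * (|z.1| + |z.2|) := by
      have a1 : K * (|cl z.1| + |cl z.2|) ≤ K * ε := mul_le_mul_of_nonneg_left (by linarith [hab z.1, hab z.2]) hK0.le
      exact mul_le_mul (a1.trans hK5) (add_le_add (hle _) (hle _)) (by positivity) (by positivity)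
    exact ⟨m1.trans k, m2.trans k⟩
  refine ⟨Φ, hΦ0, hΦc, fun x => ?_, ?_, ?_⟩
  · rw [continuous_iff_continuousAt]
    intro t
    exact (hΦd x t).continuousAt
  · intro x T
    refine ⟨?_, ?_⟩
    · intro t _
      obtain ⟨-, p2, p3⟩ := hp2 (X.f t g)
      obtain ⟨-, k2, k3⟩ := hk2 (X.f t g)
      refine ⟨p3, p2, k3, k2, by positivity, ?_⟩
      apply one_div_le_one_div_of_le (by positivity)
      nlinarith
    · intro t _
      refine ⟨(F t (Φ t x)).1, (F t (Φ t x)).2, hd1 x t, hd2 x t, ?_, ?_⟩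
      · have e : (F t (Φ t x)).1 - X.p (X.f t g) ^ 2 * (Φ t x).2 =
            FJ X (X.f t g) (cl (Φ t x).1) (cl (Φ t x).2) - X.p (X.f t g) ^ 2 * cl (Φ t x).2 := by
          show X.p (X.f t g) ^ 2 * (Φ t x).2 + (FJ X (X.f t g) (cl (Φ t x).1) (cl (Φ t x).2) - X.p (X.f t g) ^ 2 * cl (Φ t x).2) -
            X.p (X.f t g) ^ 2 * (Φ t x).2 = _
          ring
        show |(F t (Φ t x)).1 - X.p (X.f t g) ^ 2 * (Φ t x).2| ≤ 1 / (100 * K ^ 4) * (|(Φ t x).1| + |(Φ t x).2|)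
        rw [e]
        exact (hsz (X.f t g) (Φ t x)).1
      · have e : (F t (Φ t x)).2 - X.κ (X.f t g) * (Φ t x).1 =
            FW X (X.f t g) (cl (Φ t x).1) (cl (Φ t x).2) - X.κ (X.f t g) * cl (Φ t x).1 := by
          show X.κ (X.f t g) * (Φ t x).1 + (FW X (X.f t g) (cl (Φ t x).1) (cl (Φ t x).2) - X.κ (X.f t g) * cl (Φ t x).1) -
            X.κ (X.f t g) * (Φ t x).1 = _
          ring
        show |(F t (Φ t x)).2 - X.κ (X.f t g) * (Φ t x).1| ≤ 1 / (100 * K ^ 4) * (|(Φ t x).1| + |(Φ t x).2|)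
        rw [e]
        exact (hsz (X.f t g) (Φ t x)).2
  · intro x t hx1 hx2
    have c1 : cl (Φ t x).1 = (Φ t x).1 := NGC_cl_eq hx1
    have c2 : cl (Φ t x).2 = (Φ t x).2 := NGC_cl_eq hx2
    constructor
    · have h := hd1 x t
      have e : (F t (Φ t x)).1 = FJ X (X.f t g) (Φ t x).1 (Φ t x).2 := by
        show X.p (X.f t g) ^ 2 * (Φ t x).2 + (FJ X (X.f t g) (cl (Φ t x).1) (cl (Φ t x).2) - X.p (X.f t g) ^ 2 * cl (Φ t x).2) = _
        rw [c1, c2]
        ring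
      rw [e] at h
      exact h
    · have h := hd2 x t
      have e : (F t (Φ t x)).2 = FW X (X.f t g) (Φ t x).1 (Φ t x).2 := by
        show X.κ (X.f t g) * (Φ t x).1 + (FW X (X.f t g) (cl (Φ t x).1) (cl (Φ t x).2) - X.κ (X.f t g) * cl (Φ t x).1) = _
        rw [c1, c2]
        ring
      rw [e] at h
      exact h

end Pool.Agent.VNE
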